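import Mathlib

set_option autoImplicit false

namespace Pool.Agent.H.MP_85fa44_nt

theorem sub1 (S : ℝ → Prop) (l : ℝ) (h : ∀ a b, S a → S b → |a - b| < l → a = b) (y : ℝ) :
    ∃ r, ∀ a, S a → y < a → a < y + l → a = r := by
  by_cases hc : ∃ a, S a ∧ y < a ∧ a < y + l
  · obtain ⟨r, h1, h2, h3⟩ := hc
    exact ⟨r, fun a a1 a2 a3 => h a r a1 h1 (by rw [abs_lt]; constructor <;> linarith)⟩
  · exact ⟨0, fun a a1 a2 a3 => absurd ⟨a, a1, a2, a3⟩ hc⟩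

theorem ratsep (l D : ℝ) (hl : 0 < l) (hD : l * D ^ 2 ≤ 1) (m n m' n' : ℤ) (h1 : 0 < n)
    (h2 : (n : ℝ) < D) (h3 : 0 < n') (h4 : (n' : ℝ) < D) (h : |(m : ℝ) / n - m' / n'| < l) :
    (m : ℝ) / n = m' / n' := by
  have a1 : (0 : ℝ) < n := by exact_mod_cast h1
  have a2 : (0 : ℝ) < n' := by exact_mod_cast h3
  have e : (m : ℝ) / n - m' / n' = ((m * n' - m' * n : ℤ) : ℝ) / (n * n') := by
    push_cast; field_simp
  by_contra hc
  have hz : m * n' - m' * n ≠ 0 := by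
    intro h0; rw [h0] at e; simp at e; exact hc (by linarith)
  have h5 : (1 : ℝ) ≤ |((m * n' - m' * n : ℤ) : ℝ)| := by exact_mod_cast Int.one_le_abs hz
  rw [e, abs_div, abs_of_pos (mul_pos a1 a2), div_lt_iff₀ (mul_pos a1 a2)] at h
  have : (n : ℝ) * n' < D ^ 2 := by nlinarith
  nlinarith

theorem gstep (T y l D : ℝ) (hl : 0 < l) (hD : l * D ^ 2 ≤ 1) :
    ∃ y', y ≤ y' ∧ y' + l / 9 ≤ y + l ∧ ∀ x, y' ≤ x → x ≤ y' + l / 9 → ∀ m n : ℤ, 0 < n →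
      (n : ℝ) < D → l / 9 ≤ |x - m / n| ∧ l / 9 ≤ |T - x - m / n| := by
  obtain ⟨r1, h1⟩ := sub1 (fun a => ∃ m n : ℤ, 0 < n ∧ (n : ℝ) < D ∧ a = m / n) l (by
    rintro a b ⟨m, n, a1, a2, rfl⟩ ⟨m', n', b1, b2, rfl⟩ h
    exact ratsep l D hl hD m n m' n' a1 a2 b1 b2 h) y
  obtain ⟨r2, h2⟩ := sub1 (fun a => ∃ m n : ℤ, 0 < n ∧ (n : ℝ) < D ∧ a = T - m / n) l (by
    rintro a b ⟨m, n, a1, a2, rfl⟩ ⟨m', n', b1, b2, rfl⟩ h
    rw [ratsep l D hl hD m' n' m n b1 b2 a1 a2 (by convert h using 2; ring)]) y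
  obtain ⟨z, z1, z2, z3, z4⟩ : ∃ z, y ≤ z ∧ z + l / 3 ≤ y + l ∧ (r1 ≤ z ∨ z + l / 3 ≤ r1) ∧
      (r2 ≤ z ∨ z + l / 3 ≤ r2) := by
    by_cases c1 : y + l / 3 ≤ r1
    · by_cases c2 : y + l / 3 ≤ r2
      · exact ⟨y, le_rfl, by linarith, Or.inr c1, Or.inr c2⟩
      · by_cases c3 : y + 2 * l / 3 ≤ r1
        · exact ⟨y + l / 3, by linarith, by linarith, Or.inr (by linarith), Or.inl (by linarith)⟩
        · exact ⟨y + 2 * l / 3, by linarith, by linarith, Or.inl (by linarith),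
            Or.inl (by linarith)⟩
    · by_cases c3 : y + 2 * l / 3 ≤ r2
      · exact ⟨y + l / 3, by linarith, by linarith, Or.inl (by linarith), Or.inr (by linarith)⟩
      · exact ⟨y + 2 * l / 3, by linarith, by linarith, Or.inl (by linarith),
          Or.inl (by linarith)⟩
  refine ⟨z + l / 9, by linarith, by linarith, fun x x1 x2 m n n1 n2 => ⟨?_, ?_⟩⟩
  · by_contra hc
    rw [not_le, abs_lt] at hc
    have := h1 _ ⟨m, n, n1, n2, rfl⟩ (by linarith) (by linarith)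
    rcases z3 with h | h <;> linarith
  · by_contra hc
    rw [not_le, abs_lt] at hc
    have := h2 _ ⟨m, n, n1, n2, rfl⟩ (by linarith) (by linarith)
    rcases z4 with h | h <;> linarith

def BadR (x : ℝ) : Prop := ∀ m n : ℤ, 0 < n → 1 / 81 ≤ n * |n * x - m|

theorem game (T : ℝ) : ∃ x, 2 ≤ x ∧ x ≤ 3 ∧ BadR x ∧ BadR (T - x) := by
  have hs : ∀ (j : ℕ) (y : ℝ), ∃ y', y ≤ y' ∧ y' + (1 / 9) ^ (j + 1) / 9 ≤ y + (1 / 9) ^ (j + 1) ∧
      ∀ x, y' ≤ x → x ≤ y' + (1 / 9) ^ (j + 1) / 9 → ∀ m n : ℤ, 0 < n →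
      (n : ℝ) < 3 ^ (j + 1) → (1 / 9) ^ (j + 1) / 9 ≤ |x - m / n| ∧
        (1 / 9) ^ (j + 1) / 9 ≤ |T - x - m / n| := fun j y =>
    gstep T y _ _ (by positivity) (by
      rw [← pow_mul, mul_comm (j + 1) 2, pow_mul, ← mul_pow]; norm_num)
  choose f f1 f2 f3 using hs
  let y : ℕ → ℝ := fun j => Nat.rec 2 (fun j y => f j y) j
  have hy : ∀ j, y (j + 1) = f j (y j) := fun j => rfl
  have m1 : Monotone y := monotone_nat_of_le_succ fun j => by rw [hy]; exact f1 _ _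
  have m2 : Antitone (fun j => y j + (1 / 9) ^ (j + 1)) := antitone_nat_of_succ_le fun j => by
    have := f2 j (y j)
    rw [hy, pow_succ _ (j + 1)]; linarith
  have hx := m1.ciSup_mem_iInter_Icc_of_antitone m2 (fun j => by
    have : (0 : ℝ) < (1 / 9) ^ (j + 1) := by positivity
    simp only; linarith)
  rw [Set.mem_iInter] at hx
  set x := ⨆ n, y n
  have h0 := hx 0
  have y0 : y 0 = 2 := rfl
  have key : ∀ m n : ℤ, 0 < n → ∀ w : ℝ, (∀ j : ℕ, (n : ℝ) < 3 ^ (j + 1) →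
      (1 / 9) ^ (j + 1) / 9 ≤ |w - m / n|) → 1 / 81 ≤ n * |n * w - m| := by
    intro m n hn w hw
    have a1 : (1 : ℝ) ≤ n := by exact_mod_cast hn
    obtain ⟨j, j1, j2⟩ := exists_nat_pow_near a1 (show (1 : ℝ) < 3 by norm_num)
    have h1 := hw j j2
    have e : (n : ℝ) * w - m = n * (w - m / n) := by field_simp
    rw [e, abs_mul, abs_of_pos (by linarith : (0 : ℝ) < n), ← mul_assoc]
    have h2 : (3 : ℝ) ^ j * 3 ^ j ≤ n * n := mul_le_mul j1 j1 (by positivity) (by linarith)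
    have h3 : (3 : ℝ) ^ j * 3 ^ j * ((1 / 9) ^ (j + 1) / 9) = 1 / 81 := by
      rw [← mul_pow, pow_succ, ← mul_div_assoc, ← mul_assoc, ← mul_pow]; norm_num
    rw [← h3]
    exact mul_le_mul h2 h1 (by positivity) (by positivity)
  have h9 : ∀ j, y (j + 1) ≤ x ∧ x ≤ y (j + 1) + (1 / 9) ^ (j + 1) / 9 := fun j => by
    have := hx (j + 1)
    simp only [Set.mem_Icc] at this
    rw [pow_succ _ (j + 1)] at this
    constructor <;> linarith [this.1, this.2]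
  simp only [Set.mem_Icc, y0] at h0
  refine ⟨x, h0.1, by have := h0.2; norm_num at this; linarith, fun m n hn => ?_, fun m n hn => ?_⟩
  · exact key m n hn x fun j hj => (f3 j (y j) x (h9 j).1 (h9 j).2 m n hn hj).1
  · exact key m n hn _ fun j hj => (f3 j (y j) x (h9 j).1 (h9 j).2 m n hn hj).2

end Pool.Agent.H.MP_85fa44_nt
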