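import Mathlib

set_option autoImplicit false

namespace Pool.Agent.H.MP_85fa44_nt

def G (U V B C : ℤ) : Prop := ∀ m n : ℤ, 0 < m → 0 < n → m * V ≠ n * U →
  V * C + U * B ≤ 6 * (|m * V - n * U| * (m * B + n * C))

theorem G.swap {U V B C : ℤ} (h : G U V B C) : G V U C B := by
  intro m n hm hn hne
  have := h n m hn hm hne.symm
  rw [abs_sub_comm] at this
  linarith

theorem stepT {U V B C : ℤ} (hU : 0 < U) (hV : 0 < V) (hB : 0 < B) (hC : 0 < C)
    (h : G U V B (B + C)) (h6 : V * (B + C) + U * B ≤ 6 * (U * (B + C))) : G (U + V) V B C := by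
  intro m n hm hn hne
  rcases lt_trichotomy n m with c | c | c
  · have := h (m - n) n (by omega) hn (fun e => hne (by linarith))
    have e1 : m * V - n * (U + V) = (m - n) * V - n * U := by ring
    have e2 : m * B + n * C = (m - n) * B + n * (B + C) := by ring
    rw [e1, e2]; linarith
  · subst c
    have e1 : n * V - n * (U + V) = -(n * U) := by ring
    rw [e1, abs_neg, abs_of_pos (mul_pos hn hU)]
    have h1 : U * (B + C) ≤ (n * U) * (n * B + n * C) :=
      mul_le_mul (by nlinarith) (by nlinarith) (by omega) (by positivity)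
    linarith
  · have e1 : U + V ≤ |m * V - n * (U + V)| := by
      rw [abs_sub_comm]; refine le_trans ?_ (le_abs_self _); nlinarith
    have h1 : (U + V) * (B + C) ≤ |m * V - n * (U + V)| * (m * B + n * C) :=
      mul_le_mul e1 (by nlinarith) (by omega) (abs_nonneg _)
    nlinarith [mul_pos hU hC, mul_pos hV hB, mul_pos hU hB, mul_pos hV hC]

theorem stepS {U V B C : ℤ} (hU : 0 < U) (hV : 0 < V) (hB : 0 < B) (hC : 0 < C)
    (h : G U V (B + C) C) (h6 : V * C + U * (B + C) ≤ 6 * (V * (B + C))) : G U (U + V) B C := by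
  have := stepT hV hU hC hB (by rw [add_comm C B]; exact h.swap) (by nlinarith)
  rw [add_comm U V]; exact this.swap

def Good (U V : ℤ) : Prop := 0 < U ∧ 0 < V ∧ V ≤ 3 * U ∧ U ≤ 2 * V ∧ IsCoprime U V ∧
  ∀ B C : ℤ, 0 < B → B ≤ C → C ≤ 2 * B → G U V B C

theorem good_one : Good 1 1 := by
  refine ⟨one_pos, one_pos, by norm_num, by norm_num, isCoprime_one_left, ?_⟩
  intro B C hB h1 h2 m n hm hn hne
  have e1 : 1 ≤ |m * 1 - n * 1| := Int.one_le_abs (sub_ne_zero.2 hne)
  have h1 : 1 * (B + C) ≤ |m * 1 - n * 1| * (m * B + n * C) :=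
    mul_le_mul e1 (by nlinarith) (by omega) (abs_nonneg _)
  linarith

/-- two steps, for a wide range of the outer ratio -/
theorem core {U V : ℤ} (h : Good U V) (B C : ℤ) (hB : 0 < B) (hC : 0 < C) :
    G (U + V) (U + V + V) B C := by
  obtain ⟨hU, hV, h1, h2, -, h3⟩ := h
  refine stepS (by omega) hV hB hC (stepT hU hV (by omega) hC (h3 _ _ (by omega) (by omega)
    (by omega)) ?_) ?_
  · nlinarith [mul_pos hU hC, mul_pos hV hB, mul_pos hU hB, mul_pos hV hC,
      mul_nonneg (sub_nonneg.2 h1) hB.le, mul_nonneg (sub_nonneg.2 h1) hC.le]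
  · nlinarith [mul_pos hU hC, mul_pos hV hB, mul_pos hU hB, mul_pos hV hC,
      mul_nonneg (sub_nonneg.2 h2) hB.le, mul_nonneg (sub_nonneg.2 h2) hC.le]

theorem cop {U V : ℤ} (h : IsCoprime U V) (a b c d : ℤ) (hd : a * d - b * c = 1) :
    IsCoprime (a * U + b * V) (c * U + d * V) := by
  obtain ⟨s, t, e⟩ := h
  exact ⟨s * d - t * c, t * a - s * b, by linear_combination e + (s * U + t * V) * hd⟩

theorem good1 {U V : ℤ} (h : Good U V) : Good (U + V) (U + V + V) := by
  have h' := h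
  obtain ⟨hU, hV, h1, h2, h4, -⟩ := h'
  refine ⟨by omega, by omega, by omega, by omega, ?_, fun B C hB _ _ => core h B C hB (by omega)⟩
  convert cop h4 1 1 1 2 (by norm_num) using 1 <;> ring

theorem good2 {U V : ℤ} (h : Good U V) : Good (U + V + (U + V + V)) (U + V + V) := by
  have h' := h
  obtain ⟨hU, hV, h1, h2, h4, -⟩ := h'
  refine ⟨by omega, by omega, by omega, by omega, ?_, fun B C hB c1 c2 => ?_⟩
  · convert cop h4 2 3 1 2 (by norm_num) using 1 <;> ring
  · have hC : 0 < C := by omega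
    refine stepT (by omega) (by omega) hB hC (core h _ _ hB (by omega)) ?_
    nlinarith [mul_pos hU hC, mul_pos hV hB, mul_pos hU hB, mul_pos hV hC]

theorem good3 {U V : ℤ} (h : Good U V) : Good (U + V) (U + V + (U + V + V)) := by
  have h' := h
  obtain ⟨hU, hV, h1, h2, h4, -⟩ := h'
  refine ⟨by omega, by omega, by omega, by omega, ?_, fun B C hB c1 c2 => ?_⟩
  · convert cop h4 1 1 2 3 (by norm_num) using 1 <;> ring
  · have hC : 0 < C := by omega
    refine stepS (by omega) (by omega) hB hC (core h _ _ (by omega) hC) ?_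
    nlinarith [mul_pos hU hC, mul_pos hV hB, mul_pos hU hB, mul_pos hV hC]

def R (M : ℕ) (x y : ZMod M) : Prop := ∃ U V : ℤ, Good U V ∧ (U : ZMod M) = x ∧ (V : ZMod M) = y

theorem pre {M : ℕ} [NeZero M] {x y : ZMod M} (h : R M x y) :
    ∃ U V : ℤ, Good U V ∧ ((U + V : ℤ) : ZMod M) = x ∧ ((U + V + V : ℤ) : ZMod M) = y := by
  let f : ZMod M × ZMod M → ZMod M × ZMod M := fun z => (z.1 + z.2, z.1 + z.2 + z.2)
  have hf : Function.Injective f := by
    rintro ⟨a, b⟩ ⟨c, d⟩ e
    simp only [f, Prod.mk.injEq] at e ⊢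
    exact ⟨by linear_combination 2 * e.1 - e.2, by linear_combination e.2 - e.1⟩
  have hR : ∀ k, R M (f^[k] (x, y)).1 (f^[k] (x, y)).2 := by
    intro k
    induction k with
    | zero => exact h
    | succ k ih =>
      obtain ⟨U, V, g, e1, e2⟩ := ih
      rw [Function.iterate_succ_apply']
      exact ⟨_, _, good1 g, by simp [f, e1, e2], by simp [f, e1, e2]⟩
  obtain ⟨n, hn, e⟩ := hf.mem_periodicPts (x, y)
  obtain ⟨k, rfl⟩ : ∃ k, n = k + 1 := ⟨n - 1, by omega⟩
  have e' : f (f^[k] (x, y)) = (x, y) := by rw [← Function.iterate_succ_apply' f]; exact e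
  obtain ⟨U, V, g, e1, e2⟩ := hR k
  simp only [f, Prod.mk.injEq] at e'
  exact ⟨U, V, g, by push_cast; rw [e1, e2]; exact e'.1, by push_cast; rw [e1, e2]; exact e'.2⟩

theorem RT {M : ℕ} [NeZero M] {x y : ZMod M} (h : R M x y) (k : ZMod M) :
    R M (x + k * y) y ∧ R M x (y + k * x) := by
  obtain ⟨k, rfl⟩ := ZMod.natCast_zmod_surjective k
  induction k with
  | zero => simpa using h
  | succ k ih =>
    constructor
    · obtain ⟨U, V, g, e1, e2⟩ := pre ih.1
      exact ⟨_, _, good2 g, by rw [Int.cast_add, e1, e2]; push_cast; ring, e2⟩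
    · obtain ⟨U, V, g, e1, e2⟩ := pre ih.2
      exact ⟨_, _, good3 g, e1, by rw [Int.cast_add, e1, e2]; push_cast; ring⟩

theorem Rall (M : ℕ) [NeZero M] (a b : ℤ) :
    IsCoprime a b → R M a b ∧ R M b a := by
  refine EuclideanDomain.GCD.induction (P := fun a b : ℤ => IsCoprime a b → R M a b ∧ R M b a)
    a b ?_ ?_
  · intro x hx
    have h11 : R M 1 1 := ⟨1, 1, good_one, by simp, by simp⟩
    have h01 : R M 0 1 := by simpa using (RT h11 (-1)).1
    have h10 : R M 1 0 := by simpa using (RT h11 (-1)).2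
    have h2 : R M (-1) 0 := by simpa using (RT (RT h01 (-1)).1 1).2
    have h3 : R M 0 (-1) := by simpa using (RT (RT h10 (-1)).2 1).1
    rcases Int.isUnit_iff.1 (isCoprime_zero_left.1 hx) with rfl | rfl
    · simpa using ⟨h01, h10⟩
    · simpa using ⟨h3, h2⟩
  · intro a b _ ih h
    have e : b % a + (b / a) * a = b := by have := Int.emod_add_mul_ediv b a; linarith
    obtain ⟨h1, h2⟩ := ih (by
      obtain ⟨s, t, e'⟩ := h
      exact ⟨t, s + t * (b / a), by linear_combination e' + t * e⟩)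
    have e2 : ((b % a : ℤ) : ZMod M) + ((b / a : ℤ) : ZMod M) * (a : ZMod M) = b := by
      exact_mod_cast congrArg (Int.cast : ℤ → ZMod M) e
    exact ⟨e2 ▸ (RT h2 _).2, e2 ▸ (RT h1 _).1⟩

theorem tail (M : ℤ) (hM : 0 < M) (u v : ℤ) (h : IsCoprime u v) :
    ∃ U V : ℤ, Good U V ∧ M ∣ U - u ∧ M ∣ V - v := by
  lift M to ℕ using hM.le
  haveI : NeZero M := ⟨by omega⟩
  obtain ⟨U, V, g, e1, e2⟩ := (Rall M u v h).1
  exact ⟨U, V, g, (ZMod.intCast_eq_intCast_iff_dvd_sub _ _ _).1 e1.symm,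
    (ZMod.intCast_eq_intCast_iff_dvd_sub _ _ _).1 e2.symm⟩

end Pool.Agent.H.MP_85fa44_nt
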