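import Pool.Agent.H.MP_85fa44_nt.A
import Pool.Agent.H.MP_85fa44_nt.B

set_option autoImplicit false

namespace Pool.Agent.H.MP_85fa44_nt

theorem farey {x : ℝ} (hx : 0 ≤ x) (hb : BadR x) (X : ℕ) :
    ∃ p q p' q' : ℤ, 0 ≤ p ∧ 0 < q ∧ 0 < p' ∧ 0 < q' ∧ p' * q - p * q' = 1 ∧ (p : ℝ) < q * x ∧
      q' * x < p' ∧ (X : ℤ) ≤ q + q' := by
  have hne : ∀ m n : ℤ, 0 < n → (n : ℝ) * x ≠ m := by
    intro m n hn e
    have := hb m n hn
    rw [e] at this; norm_num at this
  induction X with
  | zero =>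
    have h0 : 0 ≤ ⌊x⌋ := Int.floor_nonneg.2 hx
    refine ⟨⌊x⌋, 1, ⌊x⌋ + 1, 1, h0, one_pos, by omega, one_pos, by ring, ?_, ?_, by norm_num⟩
    · have := hne ⌊x⌋ 1 one_pos
      have h2 := Int.floor_le x
      push_cast at this ⊢
      exact lt_of_le_of_ne (by linarith) (Ne.symm this)
    · have := Int.lt_floor_add_one x
      push_cast; linarith
  | succ X ih =>
    obtain ⟨p, q, p', q', h0, h1, h2, h3, h4, h5, h6, h7⟩ := ih
    rcases lt_or_gt_of_ne (hne (p + p') (q + q') (by omega)) with h | h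
    · exact ⟨p, q, p + p', q + q', h0, h1, by omega, by omega, by linarith, h5, h,
        by push_cast; omega⟩
    · exact ⟨p + p', q + q', p', q', by omega, by omega, h2, h3, by linarith, h, h6,
        by push_cast; omega⟩

def BadQ (A A2 : ℤ) : Prop := ∀ m n : ℤ, 0 < n → m * A ≠ n * A2 → A ≤ 648 * (n * |m * A - n * A2|)

theorem large {U V q q' K m' n' : ℤ} (g : Good U V) (hq : 0 < q) (hq' : 0 < q') (k1 : q ≤ K)
    (k2 : q' ≤ K) (k3 : K ≤ 81 * q) (k4 : K ≤ 81 * q') (hn : K ≤ 162 * (q * m' + q' * n'))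
    (hne : m' * V ≠ n' * U) :
    q * U + q' * V ≤ 648 * ((q * m' + q' * n') * |m' * V - n' * U|) := by
  obtain ⟨hU, hV, h1, h2, -, h3⟩ := g
  have hA : q * U + q' * V ≤ K * (U + V) := by nlinarith
  have hK : 0 < K := by omega
  by_cases c : 0 < m' ∧ 0 < n'
  · have := h3 1 1 one_pos le_rfl (by norm_num) m' n' c.1 c.2 hne
    have e : K * (m' + n') ≤ 81 * (q * m' + q' * n') := by nlinarith [c.1, c.2]
    have h4 := mul_le_mul_of_nonneg_left this hK.le
    have h5 := mul_le_mul_of_nonneg_left e (abs_nonneg (m' * V - n' * U))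
    have h6 : 0 ≤ (q * m' + q' * n') * |m' * V - n' * U| :=
      mul_nonneg (by omega) (abs_nonneg _)
    nlinarith
  · have e : U + V ≤ 4 * |m' * V - n' * U| := by
      by_cases c1 : 0 < m'
      · have c2 : n' ≤ 0 := by omega
        have := le_abs_self (m' * V - n' * U)
        nlinarith
      · have c2 : 0 < n' := by
          by_contra c2
          have : q * m' ≤ 0 := by nlinarith
          have : q' * n' ≤ 0 := by nlinarith
          omega
        have := neg_le_abs (m' * V - n' * U)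
        nlinarith
    have := mul_le_mul hn e (by omega) (by omega)
    linarith

theorem comp {x : ℝ} (hx : 0 ≤ x) (hb : BadR x) (M : ℤ) (hM : 0 < M) (u v : ℤ) (h : IsCoprime u v)
    (X : ℕ) : ∃ A A2 : ℤ, 0 < A ∧ (X : ℤ) ≤ A ∧ IsCoprime A A2 ∧ M ∣ A - u ∧ M ∣ A2 - v ∧
      X * |A * x - A2| ≤ A ∧ BadQ A A2 := by
  obtain ⟨p, q, p', q', h0, h1, h2, h3, h4, h5, h6, h7⟩ := farey hx hb (X + 1)
  obtain ⟨U, V, g, d1, d2⟩ := tail M hM (p' * u + -q' * v) (-p * u + q * v)
    (cop h _ _ _ _ (by linarith))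
  have g' := g
  obtain ⟨hU, hV, -, -, hc, -⟩ := g'
  have q1 : (1 : ℝ) ≤ q := by exact_mod_cast h1
  have q2 : (1 : ℝ) ≤ q' := by exact_mod_cast h3
  have U1 : (1 : ℝ) ≤ U := by exact_mod_cast hU
  have V1 : (1 : ℝ) ≤ V := by exact_mod_cast hV
  have h4' : (p' : ℝ) * q - p * q' = 1 := by exact_mod_cast h4
  have e1 : (q' : ℝ) * (q * x - p) ≤ 1 := by nlinarith
  have e2 : (q : ℝ) * (p' - q' * x) ≤ 1 := by nlinarith
  have c1 : q' ≤ 81 * q := by
    have := hb p q h1
    rw [abs_of_pos (by linarith)] at this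
    have h8 : (q' : ℝ) ≤ 81 * q := by nlinarith
    exact_mod_cast h8
  have c2 : q ≤ 81 * q' := by
    have := hb p' q' h3
    rw [abs_of_neg (by linarith)] at this
    have h8 : (q : ℝ) ≤ 81 * q' := by nlinarith
    exact_mod_cast h8
  have ap : (q : ℝ) * q' * |((q * U + q' * V : ℤ) : ℝ) * x - (p * U + p' * V : ℤ)| ≤
      (q * U + q' * V : ℤ) := by
    rw [← abs_of_pos (show (0 : ℝ) < q * q' by positivity), ← abs_mul, abs_le]
    push_cast
    have a1 := mul_le_mul_of_nonneg_left e1 (show (0 : ℝ) ≤ q * U by positivity)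
    have a2 := mul_le_mul_of_nonneg_left e2 (show (0 : ℝ) ≤ q' * V by positivity)
    have a3 : (0 : ℝ) ≤ q * U * (q' * (q * x - p)) := by
      have : (0 : ℝ) ≤ q * x - p := by linarith
      positivity
    have a4 : (0 : ℝ) ≤ q' * V * (q * (p' - q' * x)) := by
      have : (0 : ℝ) ≤ p' - q' * x := by linarith
      positivity
    have a5 : (0 : ℝ) ≤ q * U := by positivity
    have a6 : (0 : ℝ) ≤ q' * V := by positivity
    constructor <;> linarith
  have hX : (X : ℤ) ≤ q * q' := by push_cast at h7; nlinarith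
  have hA : 0 < q * U + q' * V := by positivity
  refine ⟨q * U + q' * V, p * U + p' * V, hA, by push_cast at h7; nlinarith,
    cop hc _ _ _ _ (by linarith), ?_, ?_, ?_, ?_⟩
  · rw [show q * U + q' * V - u = q * (U - (p' * u + -q' * v)) + q' * (V - (-p * u + q * v)) by
      linear_combination u * h4]
    exact dvd_add (d1.mul_left q) (d2.mul_left q')
  · rw [show p * U + p' * V - v = p * (U - (p' * u + -q' * v)) + p' * (V - (-p * u + q * v)) by
      linear_combination v * h4]
    exact dvd_add (d1.mul_left p) (d2.mul_left p')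
  · refine le_trans (mul_le_mul_of_nonneg_right ?_ (abs_nonneg _)) ap
    exact_mod_cast hX
  · intro m n hn hne
    by_cases c : max q q' ≤ 162 * n
    · have e3 : n = q * (p' * n - q' * m) + q' * (q * m - p * n) := by linear_combination -n * h4
      have e4 : m * (q * U + q' * V) - n * (p * U + p' * V) =
          -((p' * n - q' * m) * V - (q * m - p * n) * U) := by ring
      have := large (m' := p' * n - q' * m) (n' := q * m - p * n) g h1 h3 (le_max_left _ _)
        (le_max_right _ _) (max_le (by omega) c1) (max_le c2 (by omega)) (by rw [← e3]; exact c)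
        (fun e => hne (by linarith))
      rw [← e3] at this
      rw [e4, abs_neg]; exact this
    · have k : 324 * (n * n) ≤ q * q' := by
        rcases le_total q q' with k | k
        · rw [max_eq_right k] at c; nlinarith
        · rw [max_eq_left k] at c; nlinarith
      generalize q * U + q' * V = A at *
      generalize p * U + p' * V = A2 at *
      have k' : (324 : ℝ) * (n * n) ≤ q * q' := by exact_mod_cast k
      have n1 : (0 : ℝ) < n := by exact_mod_cast hn
      have A1 : (0 : ℝ) < A := by exact_mod_cast hA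
      have b1 := hb m n hn
      have t : (A : ℝ) * |n * x - m| ≤ |(m : ℝ) * A - n * A2| + n * |A * x - A2| := by
        calc (A : ℝ) * |n * x - m| = |-((m : ℝ) * A - n * A2) + n * (A * x - A2)| := by
              rw [← abs_of_pos A1, ← abs_mul, abs_of_pos A1]; congr 1; ring
          _ ≤ _ := by
              refine (abs_add_le _ _).trans ?_
              rw [abs_neg, abs_mul, abs_of_pos n1]
      have t2 := mul_le_mul_of_nonneg_left t n1.le
      have t3 := mul_le_mul_of_nonneg_right k' (abs_nonneg (A * x - A2))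
      have t4 := mul_le_mul_of_nonneg_left b1 A1.le
      have : (A : ℝ) ≤ 648 * (n * |(m : ℝ) * A - n * A2|) := by linarith
      exact_mod_cast this

theorem half {A A2 B B2 m n : ℤ} (hA : 0 < A) (hB : 0 < B) (h2 : B ≤ B2) (hb : BadQ A A2)
    (hD : 649 * (A * B) ≤ A * B2 + A2 * B) (hm : 0 ≤ m) (hn : 0 < n) (hne : m * A ≠ n * A2) :
    A * B ≤ |m * A - n * A2| * |m * B + n * B2| := by
  have hY : B ≤ m * B + n * B2 := by nlinarith
  rw [abs_of_pos (show 0 < m * B + n * B2 by omega)]
  by_cases c : A ≤ |m * A - n * A2|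
  · exact mul_le_mul c hY hB.le (abs_nonneg _)
  · have h1 := hb m n hn hne
    have h3 : n * A2 - A ≤ m * A := by have := neg_le_abs (m * A - n * A2); omega
    have hAB := mul_pos hA hB
    have h4 : 648 * n * B * A ≤ (m * B + n * B2) * A := by
      have := mul_le_mul_of_nonneg_left h3 hB.le
      have := mul_le_mul_of_nonneg_left hD hn.le
      nlinarith
    have h5 := le_of_mul_le_mul_right h4 hA
    have h6 := mul_le_mul_of_nonneg_left h5 (abs_nonneg (m * A - n * A2))
    have h7 := mul_le_mul_of_nonneg_left h1 hB.le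
    linarith

theorem latt {A A2 B B2 : ℤ} (hA : 0 < A) (hB : 0 < B) (h1 : A ≤ A2) (h2 : B ≤ B2)
    (ha : BadQ A A2) (hb : BadQ B B2) (hD : 649 * (A * B) ≤ A * B2 + A2 * B) (m n : ℤ)
    (hX : m * A - n * A2 ≠ 0) (hY : m * B + n * B2 ≠ 0) :
    A * B ≤ |m * A - n * A2| * |m * B + n * B2| := by
  have key : ∀ m n : ℤ, 0 < n → m * A - n * A2 ≠ 0 → m * B + n * B2 ≠ 0 →
      A * B ≤ |m * A - n * A2| * |m * B + n * B2| := by
    intro m n hn hX hY
    rcases le_total 0 m with c | c
    · exact half hA hB h2 ha hD c hn (sub_ne_zero.1 hX)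
    · have := half (m := -m) hB hA h1 hb (by linarith) (by omega) hn (fun e => hY (by linarith))
      rw [show -m * B - n * B2 = -(m * B + n * B2) by ring,
        show -m * A + n * A2 = -(m * A - n * A2) by ring, abs_neg, abs_neg] at this
      linarith
  rcases lt_trichotomy 0 n with c | rfl | c
  · exact key m n c hX hY
  · have hm : m ≠ 0 := by rintro rfl; simp at hX
    have := Int.one_le_abs hm
    simp only [zero_mul, sub_zero, add_zero, abs_mul, abs_of_pos hA, abs_of_pos hB]
    exact mul_le_mul (by nlinarith) (by nlinarith) hB.le (by positivity)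
  · have := key (-m) (-n) (by omega) (fun e => hX (by linarith)) (fun e => hY (by linarith))
    rwa [show -m * B + -n * B2 = -(m * B + n * B2) by ring,
      show -m * A - -n * A2 = -(m * A - n * A2) by ring, abs_neg, abs_neg] at this

theorem step (T : ℝ) (hT : 1000 ≤ T) (N a b : ℤ) (hN : 0 < N) (ha : IsCoprime a N)
    (hb : IsCoprime b N) (X : ℕ) (hX : 1 ≤ X) :
    ∃ N' a' b' A B : ℤ, IsCoprime a' N' ∧ IsCoprime b' N' ∧ N * a' = A + a * N' ∧
      N * b' = B + b * N' ∧ 0 < A ∧ 0 < B ∧ X * A ≤ N' ∧ X * B ≤ N' ∧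
      X * |T * (A * B) - N'| ≤ 2 * (A * B) ∧
      ∀ q s t : ℤ, 1 ≤ q → q < N' → q * a' - s * N' ≠ 0 ∧ q * b' - t * N' ≠ 0 ∧
        A * B ≤ |q * a' - s * N'| * |q * b' - t * N'| := by
  obtain ⟨x, x1, x2, x3, x4⟩ := game T
  obtain ⟨s, t, e⟩ := ha
  have hb' := hb
  obtain ⟨s', t', e'⟩ := hb'
  obtain ⟨A, A2, A0, AX, cA, ⟨k1, d1⟩, ⟨k2, d2⟩, apA, bA⟩ := comp (by linarith) x3 N hN a
    (t * N - s' * s * a) ⟨s + s' * s, 1, by linear_combination e⟩ X
  have cAN : s * A + (t - s * k1) * N = 1 := by linear_combination e + s * d1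
  have cB : IsCoprime (b * s * A + (t - s * k1) * N) (N * A) := by
    refine IsCoprime.mul_right ?_ ⟨1, s - b * s, by linear_combination cAN⟩
    exact ⟨s', t' + s' * (t - s * k1) * (b - 1), by linear_combination e' + s' * b * cAN⟩
  obtain ⟨B, B2, B0, BX, cBB, ⟨k3, d3⟩, ⟨k4, d4⟩, apB, bB⟩ := comp (by linarith) x4 (N * A)
    (mul_pos hN A0) _ _ cB X
  have X1 : (1 : ℝ) ≤ X := by exact_mod_cast hX
  have A1 : (0 : ℝ) < A := by exact_mod_cast A0
  have B1 : (0 : ℝ) < B := by exact_mod_cast B0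
  have u1 : |A * x - A2| ≤ A := by nlinarith [abs_nonneg (A * x - A2)]
  have u2 : |B * (T - x) - B2| ≤ B := by nlinarith [abs_nonneg (B * (T - x) - B2)]
  have l1 : A ≤ A2 := by
    have : (A : ℝ) ≤ A2 := by rw [abs_le] at u1; nlinarith [u1.2]
    exact_mod_cast this
  have l2 : 900 * B ≤ B2 := by
    have : 900 * (B : ℝ) ≤ B2 := by rw [abs_le] at u2; nlinarith [u2.2]
    exact_mod_cast this
  have hD : 649 * (A * B) ≤ A * B2 + A2 * B := by nlinarith [mul_pos A0 B0]
  have cAB : IsCoprime A B := ⟨s - b * s - N * k3, 1, by linear_combination cAN + d3⟩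
  have c1 : IsCoprime A (A * B2 + A2 * B) := by
    have := (cA.mul_right cAB).add_mul_left_right B2
    rwa [add_comm] at this
  have c2 : IsCoprime B (A * B2 + A2 * B) := by
    have := (cAB.symm.mul_right cBB).add_mul_right_right A2
    exact this
  obtain ⟨m0, hm0⟩ : ∃ m0, N * m0 = 1 + a * B2 + b * A2 :=
    ⟨a * A * (k4 + 1) + b * (k2 + t) + t' + s' * b * t, by
      linear_combination (-a) * d4 - b * d2 + e' + s' * b * e⟩
  obtain ⟨n0, hn0⟩ : ∃ n0, N * n0 = A * b - B * a :=
    ⟨b * k1 - a * (A * k3 + (1 - b) * (t - s * k1)), by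
      linear_combination (-b) * d1 + a * d3 + a * b * cAN⟩
  have f1 : N * (m0 * A - n0 * A2) = A + a * (A * B2 + A2 * B) := by
    linear_combination A * hm0 - A2 * hn0
  have f2 : N * (m0 * B + n0 * B2) = B + b * (A * B2 + A2 * B) := by
    linear_combination B * hm0 + B2 * hn0
  have g1 : IsCoprime (m0 * A - n0 * A2) (A * B2 + A2 * B) := by
    have := c1.add_mul_right_left a
    rw [← f1] at this; exact this.of_mul_left_right
  have g2 : IsCoprime (m0 * B + n0 * B2) (A * B2 + A2 * B) := by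
    have := c2.add_mul_right_left b
    rw [← f2] at this; exact this.of_mul_left_right
  refine ⟨_, _, _, A, B, g1, g2, f1, f2, A0, B0, ?_, ?_, ?_, ?_⟩
  · have : X * A ≤ B2 * A := mul_le_mul_of_nonneg_right (by omega) A0.le
    have : 0 ≤ A2 * B := mul_nonneg (by omega) B0.le
    linarith
  · have : X * B ≤ A2 * B := mul_le_mul_of_nonneg_right (by omega) B0.le
    have : 0 ≤ A * B2 := mul_nonneg A0.le (by omega)
    linarith
  · have t1 : |T * (A * B) - ((A * B2 + A2 * B : ℤ) : ℝ)| ≤
        B * |A * x - A2| + A * |B * (T - x) - B2| := by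
      calc _ = |B * (A * x - A2) + A * (B * (T - x) - B2)| := by congr 1; push_cast; ring
        _ ≤ _ := by
          refine (abs_add_le _ _).trans ?_
          rw [abs_mul, abs_mul, abs_of_pos A1, abs_of_pos B1]
    have t2 := mul_le_mul_of_nonneg_left t1 (show (0 : ℝ) ≤ X by linarith)
    have t3 := mul_le_mul_of_nonneg_left apA B1.le
    have t4 := mul_le_mul_of_nonneg_left apB A1.le
    linarith
  · intro q s t q1 q2
    have nz : ∀ c s : ℤ, IsCoprime c (A * B2 + A2 * B) → q * c - s * (A * B2 + A2 * B) ≠ 0 := by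
      intro c s hc e
      have : (A * B2 + A2 * B) ∣ q := hc.symm.dvd_of_dvd_mul_right ⟨s, by linarith⟩
      have := Int.le_of_dvd (by omega) this
      omega
    have z1 := nz _ s g1
    have z2 := nz _ t g2
    refine ⟨z1, z2, ?_⟩
    have e1 : q * (m0 * A - n0 * A2) - s * (A * B2 + A2 * B) =
        (q * m0 - s * B2 - t * A2) * A - (q * n0 + s * B - t * A) * A2 := by ring
    have e2 : q * (m0 * B + n0 * B2) - t * (A * B2 + A2 * B) =
        (q * m0 - s * B2 - t * A2) * B + (q * n0 + s * B - t * A) * B2 := by ring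
    rw [e1] at z1 ⊢
    rw [e2] at z2 ⊢
    exact latt A0 B0 l1 (by omega) bA bB hD _ _ z1 z2

end Pool.Agent.H.MP_85fa44_nt
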