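import Mathlib

set_option autoImplicit false

namespace Pool.Agent.H.MP_85fa44_nt

/-- distance to the nearest integer -/
noncomputable def nd (x : ℝ) : ℝ := |x - round x|

/-- `m_Q(ξ, ζ)`: the minimum of `‖qξ‖ ‖qζ‖` over the integers `1 ≤ q ≤ Q` -/
noncomputable def mQ (Q ξ ζ : ℝ) : ℝ :=
  sInf {v : ℝ | ∃ q : ℤ, 1 ≤ q ∧ (q : ℝ) ≤ Q ∧ v = nd (q * ξ) * nd (q * ζ)}

/-- `L(ξ, ζ)`, the upper limit taken in the extended reals, `Q` real -/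
noncomputable def L (ξ ζ : ℝ) : EReal :=
  Filter.limsup (fun Q : ℝ => ((Q * mQ Q ξ ζ : ℝ) : EReal)) Filter.atTop

/-- the multiplicative Dirichlet spectrum -/
def spec : Set ℝ := {c : ℝ | ∃ ξ ζ : ℝ, L ξ ζ = (c : EReal)}

end Pool.Agent.H.MP_85fa44_nt
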