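import Pool.Agent.H.MP_85fa44_nt.C
import Pool.Agent.H.MP_85fa44_nt.Defs

set_option autoImplicit false

namespace Pool.Agent.H.MP_85fa44_nt

open Filter

theorem nd_nonneg (x : ℝ) : 0 ≤ nd x := abs_nonneg _

theorem up1 {N N' a a' A : ℤ} {ξ ε : ℝ} (hN : 0 < N) (hNN : N < N') (e : N * a' = A + a * N')
    (hA : 0 < A) (h1 : 0 ≤ N' * ξ - a') (h2 : N' * (N' * ξ - a') ≤ ε) :
    N' * nd (N * ξ) ≤ (1 + ε) * A := by
  have n1 : (0 : ℝ) < N := by exact_mod_cast hN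
  have n2 : (N : ℝ) < N' := by exact_mod_cast hNN
  have A1 : (1 : ℝ) ≤ A := by exact_mod_cast hA
  have e' : (N : ℝ) * a' = A + a * N' := by exact_mod_cast e
  have h3 : nd (N * ξ) ≤ |N * ξ - a| := round_le _ _
  have h4 : (N' : ℝ) * (N * ξ - a) = N * (N' * ξ - a') + A := by linear_combination e'
  have h5 : (N : ℝ) * (N' * ξ - a') ≤ N' * (N' * ξ - a') := mul_le_mul_of_nonneg_right n2.le h1
  have h6 : 0 ≤ (N : ℝ) * (N' * ξ - a') := mul_nonneg n1.le h1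
  have h7 : (N' : ℝ) * |N * ξ - a| = N * (N' * ξ - a') + A := by
    rw [← abs_of_pos (show (0 : ℝ) < N' by linarith), ← abs_mul, abs_of_pos (show (0 : ℝ) < N' by linarith), h4,
      abs_of_nonneg (by linarith)]
  have h8 := mul_le_mul_of_nonneg_left h3 (show (0 : ℝ) ≤ N' by linarith)
  have h9 : ε ≤ ε * A := by nlinarith
  linarith

theorem lo1 {N' a' q : ℤ} {ξ ε : ℝ} (hq : 1 ≤ q) (hqN : q < N')
    (h1 : 0 ≤ N' * ξ - a') (h2 : N' * (N' * ξ - a') ≤ ε)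
    (hz : q * a' - round (q * ξ) * N' ≠ 0) :
    (1 - ε) * ((|q * a' - round (q * ξ) * N'| : ℤ) : ℝ) ≤ N' * nd (q * ξ) := by
  have n1 : (1 : ℝ) ≤ q := by exact_mod_cast hq
  have n2 : (q : ℝ) < N' := by exact_mod_cast hqN
  have z1 : (1 : ℝ) ≤ ((|q * a' - round (q * ξ) * N'| : ℤ) : ℝ) := by
    exact_mod_cast Int.one_le_abs hz
  have h5 : (q : ℝ) * (N' * ξ - a') ≤ N' * (N' * ξ - a') := mul_le_mul_of_nonneg_right n2.le h1
  have h6 : 0 ≤ (q : ℝ) * (N' * ξ - a') := mul_nonneg (by linarith) h1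
  have h7 : ((|q * a' - round (q * ξ) * N'| : ℤ) : ℝ) ≤ N' * nd (q * ξ) + q * (N' * ξ - a') := by
    push_cast
    calc _ = |N' * (q * ξ - round (q * ξ)) + -(q * (N' * ξ - a'))| := by congr 1; ring
      _ ≤ _ := by
        refine (abs_add_le _ _).trans ?_
        rw [abs_neg, abs_of_nonneg h6, abs_mul, abs_of_pos (show (0 : ℝ) < N' by linarith)]
        rfl
  have h9 : ε ≤ ε * ((|q * a' - round (q * ξ) * N'| : ℤ) : ℝ) := by nlinarith
  linarith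

structure St where
  N : ℤ
  a : ℤ
  b : ℤ
  η : ℝ
  hN : 0 < N
  ha : IsCoprime a N
  hb : IsCoprime b N
  hη : 0 < η

def Rel (c ε : ℝ) (s s' : St) : Prop :=
  s.N < s'.N ∧ (s.a : ℝ) / s.N ≤ s'.a / s'.N ∧ (s'.a : ℝ) / s'.N + s'.η ≤ s.a / s.N + s.η ∧
    (s.b : ℝ) / s.N ≤ s'.b / s'.N ∧ (s'.b : ℝ) / s'.N + s'.η ≤ s.b / s.N + s.η ∧
    ∀ ξ ζ : ℝ, (s'.a : ℝ) / s'.N ≤ ξ → ξ ≤ s'.a / s'.N + s'.η → (s'.b : ℝ) / s'.N ≤ ζ →
      ζ ≤ s'.b / s'.N + s'.η → s'.N * (nd (s.N * ξ) * nd (s.N * ζ)) ≤ c + ε ∧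
        ∀ q : ℤ, 1 ≤ q → q < s'.N → c - ε ≤ (s'.N - 1) * (nd (q * ξ) * nd (q * ζ))

theorem near {N N' a a' A : ℤ} {X η : ℝ} (hN : 0 < N) (hN' : 0 < N') (e : N * a' = A + a * N')
    (hA : 0 < A) (hX : X * A ≤ N') (hη : 0 < η) (h2 : 2 ≤ η * X) :
    (a : ℝ) / N ≤ a' / N' ∧ (a' : ℝ) / N' + η / 2 ≤ a / N + η := by
  have n1 : (1 : ℝ) ≤ N := by exact_mod_cast hN
  have n2 : (0 : ℝ) < N' := by exact_mod_cast hN'
  have A1 : (0 : ℝ) < A := by exact_mod_cast hA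
  have e' : (N : ℝ) * a' = A + a * N' := by exact_mod_cast e
  have h3 : (a' : ℝ) / N' = a / N + A / (N * N') := by
    field_simp; linarith
  have h4 : (A : ℝ) / (N * N') ≤ η / 2 := by
    rw [div_le_iff₀ (by positivity)]
    have := mul_le_mul_of_nonneg_left hX hη.le
    have := mul_le_mul_of_nonneg_right h2 A1.le
    have : η * N' ≤ η * N' * N := le_mul_of_one_le_right (by positivity) n1
    linarith
  have h5 : (0 : ℝ) ≤ A / (N * N') := by positivity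
  constructor <;> linarith

theorem dl {N' a' ξ η ε : ℝ} (hN : 0 < N') (h1 : a' / N' ≤ ξ) (h2 : ξ ≤ a' / N' + η)
    (h3 : η ≤ ε / N' ^ 2) : 0 ≤ N' * ξ - a' ∧ N' * (N' * ξ - a') ≤ ε := by
  rw [div_le_iff₀ hN] at h1
  rw [le_div_iff₀ (by positivity)] at h3
  have h4 := mul_le_mul_of_nonneg_left h2 (show 0 ≤ N' ^ 2 by positivity)
  have h5 : N' ^ 2 * (a' / N' + η) = N' * a' + η * N' ^ 2 := by field_simp
  constructor <;> nlinarith

theorem fin_up {c T ε N P D : ℝ} (hc : c * T = 1) (hT : 1000 ≤ T) (h0 : 0 < ε) (h1 : ε ≤ 1)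
    (hN : 0 < N) (h2 : N * N * P ≤ (1 + ε) ^ 2 * D) (h3 : (T - ε) * D ≤ N) : N * P ≤ c + ε := by
  have c0 : 0 < c := by by_contra h; nlinarith
  have c1 : c ≤ 1 := by nlinarith
  have a1 := mul_le_mul_of_nonneg_left h2 (show 0 ≤ T - ε by linarith)
  have a2 := mul_le_mul_of_nonneg_left h3 (show 0 ≤ (1 + ε) ^ 2 by positivity)
  have a3 : N * P * (T - ε) * N ≤ (1 + ε) ^ 2 * N := by linarith
  have a4 := le_of_mul_le_mul_right a3 hN
  have a5 : (1 + ε) ^ 2 ≤ (c + ε) * (T - ε) := by nlinarith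
  exact le_of_mul_le_mul_right (a4.trans a5) (by linarith)

theorem fin_lo {c T ε N P D : ℝ} (hc : c * T = 1) (hT : 1000 ≤ T) (h0 : 0 < ε) (h1 : ε ≤ 1)
    (hN : 0 < N) (hP : 0 ≤ P) (h2 : (1 - ε) ^ 2 * D ≤ N * N * P) (h3 : N ≤ (T + ε) * D)
    (h4 : 1 ≤ ε * N) : c - ε ≤ (N - 1) * P := by
  have c0 : 0 < c := by by_contra h; nlinarith
  have c1 : c ≤ 1 := by nlinarith
  have a1 := mul_le_mul_of_nonneg_left h2 (show 0 ≤ T + ε by linarith)
  have a2 := mul_le_mul_of_nonneg_left h3 (show 0 ≤ (1 - ε) ^ 2 by positivity)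
  have a3 : (1 - ε) ^ 2 * N ≤ N * P * (T + ε) * N := by linarith
  have a4 := le_of_mul_le_mul_right a3 hN
  have a5 := mul_le_mul_of_nonneg_left a4 (show 0 ≤ 1 - ε by linarith)
  have a6 : (1 - ε) * N * (P * (T + ε)) ≤ (N - 1) * (P * (T + ε)) :=
    mul_le_mul_of_nonneg_right (by linarith) (mul_nonneg hP (by linarith))
  have a7 : (c - ε) * (T + ε) ≤ (1 - ε) * (1 - ε) ^ 2 := by nlinarith [mul_pos h0 h0]
  have a8 : (c - ε) * (T + ε) ≤ (N - 1) * P * (T + ε) := by linarith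
  exact le_of_mul_le_mul_right a8 (by linarith)

theorem rel_ex {c T ε : ℝ} (hc : c * T = 1) (hT : 1000 ≤ T) (h0 : 0 < ε) (h1 : ε ≤ 1) (s : St) :
    ∃ s', Rel c ε s s' := by
  obtain ⟨N, a, b, η, hN, ha, hb, hη⟩ := s
  obtain ⟨X, hX⟩ := exists_nat_ge ((N : ℝ) + 1 + 2 / η + 2 / ε)
  have n1 : (0 : ℝ) < N := by exact_mod_cast hN
  have p1 : 0 < 2 / η := by positivity
  have p2 : 0 < 2 / ε := by positivity
  have x1 : 2 ≤ η * X := by
    have : 2 / η ≤ X := by linarith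
    rw [div_le_iff₀ hη] at this; linarith
  have x2 : 2 ≤ ε * X := by
    have : 2 / ε ≤ X := by linarith
    rw [div_le_iff₀ h0] at this; linarith
  have x3 : N + 1 ≤ (X : ℤ) := by
    have : (N : ℝ) + 1 ≤ X := by linarith
    exact_mod_cast this
  obtain ⟨N', a', b', A, B, c1, c2, e1, e2, A0, B0, i1, i2, i3, i4⟩ :=
    step T hT N a b hN ha hb X (by omega)
  have hX' : (X : ℤ) ≤ N' := by nlinarith
  have hN' : 0 < N' := by omega
  have n2 : (0 : ℝ) < N' := by exact_mod_cast hN'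
  have u1 := near hN hN' e1 A0 (X := X) (by exact_mod_cast i1) hη x1
  have u2 := near hN hN' e2 B0 (X := X) (by exact_mod_cast i2) hη x1
  have A1 : (0 : ℝ) < A := by exact_mod_cast A0
  have B1 : (0 : ℝ) < B := by exact_mod_cast B0
  have X0 : (0 : ℝ) < X := by linarith
  have i5 : |T * (A * B) - N'| ≤ ε * (A * B) := by
    have := mul_le_mul_of_nonneg_right x2 (mul_pos A1 B1).le
    exact le_of_mul_le_mul_left (a := (X : ℝ)) (by linarith) X0
  rw [abs_le] at i5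
  have m1 := min_le_left (η / 2) (ε / N' ^ 2)
  have m2 := min_le_right (η / 2) (ε / N' ^ 2)
  refine ⟨⟨N', a', b', min (η / 2) (ε / N' ^ 2), hN', c1, c2, by positivity⟩, by simp only; omega,
    u1.1, by simp only; linarith [u1.2], u2.1, by simp only; linarith [u2.2], ?_⟩
  intro ξ ζ r1 r2 r3 r4
  simp only at r1 r2 r3 r4 ⊢
  obtain ⟨d1, d2⟩ := dl n2 r1 r2 m2
  obtain ⟨d3, d4⟩ := dl n2 r3 r4 m2
  constructor
  · have w1 := up1 hN (by omega) e1 A0 d1 d2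
    have w2 := up1 hN (by omega) e2 B0 d3 d4
    have w3 := mul_le_mul w1 w2 (mul_nonneg n2.le (nd_nonneg _)) (by positivity)
    exact fin_up (D := A * B) hc hT h0 h1 n2 (by linarith) (by linarith [i5.2])
  · intro q q1 q2
    obtain ⟨z1, z2, z3⟩ := i4 q (round (q * ξ)) (round (q * ζ)) q1 q2
    have w1 := lo1 q1 q2 d1 d2 z1
    have w2 := lo1 q1 q2 d3 d4 z2
    have w3 := mul_le_mul w1 w2 (mul_nonneg (by linarith) (by exact_mod_cast abs_nonneg _))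
      (mul_nonneg n2.le (nd_nonneg _))
    have z4 : (A : ℝ) * B ≤ ((|q * a' - round (q * ξ) * N'| : ℤ) : ℝ) *
        ((|q * b' - round (q * ζ) * N'| : ℤ) : ℝ) := by exact_mod_cast z3
    have z5 := mul_le_mul_of_nonneg_left z4 (show 0 ≤ (1 - ε) ^ 2 by positivity)
    have z6 : (X : ℝ) ≤ N' := by exact_mod_cast hX'
    exact fin_lo (D := A * B) hc hT h0 h1 n2 (mul_nonneg (nd_nonneg _) (nd_nonneg _))
      (by linarith) (by linarith [i5.1]) (by nlinarith)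

theorem mQ_le {Q ξ ζ : ℝ} (q : ℤ) (h1 : 1 ≤ q) (h2 : (q : ℝ) ≤ Q) :
    mQ Q ξ ζ ≤ nd (q * ξ) * nd (q * ζ) :=
  csInf_le ⟨0, by rintro v ⟨q, -, -, rfl⟩; exact mul_nonneg (nd_nonneg _) (nd_nonneg _)⟩
    ⟨q, h1, h2, rfl⟩

theorem mQ_nonneg (Q ξ ζ : ℝ) : 0 ≤ mQ Q ξ ζ :=
  Real.sInf_nonneg (by rintro v ⟨q, -, -, rfl⟩; exact mul_nonneg (nd_nonneg _) (nd_nonneg _))

theorem le_mQ {Q ξ ζ w : ℝ} (hQ : 1 ≤ Q)
    (h : ∀ q : ℤ, 1 ≤ q → (q : ℝ) ≤ Q → w ≤ Q * (nd (q * ξ) * nd (q * ζ))) : w ≤ Q * mQ Q ξ ζ := by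
  rw [← div_le_iff₀' (by linarith)]
  refine le_csInf ⟨_, 1, le_rfl, by simpa using hQ, rfl⟩ ?_
  rintro v ⟨q, h1, h2, rfl⟩
  rw [div_le_iff₀' (by linarith)]
  exact h q h1 h2

theorem main {c : ℝ} (c0 : 0 < c) (c1 : c ≤ 1 / 1000) : c ∈ spec := by
  have hc : c * (1 / c) = 1 := by field_simp
  have hT : 1000 ≤ 1 / c := by rw [le_div_iff₀ c0]; linarith
  have e0 : ∀ k : ℕ, (0 : ℝ) < 1 / (k + 1) := fun k => by positivity
  have e1 : ∀ k : ℕ, (1 : ℝ) / (k + 1) ≤ 1 := fun k => by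
    rw [div_le_one (by positivity)]; linarith [(Nat.cast_nonneg k : (0 : ℝ) ≤ k)]
  choose f hf using fun (k : ℕ) (s : St) => rel_ex hc hT (e0 k) (e1 k) s
  let s : ℕ → St := fun k => Nat.rec ⟨1, 0, 0, 1, one_pos, isCoprime_one_right,
    isCoprime_one_right, one_pos⟩ (fun k s => f k s) k
  have hs : ∀ k : ℕ, Rel c (1 / (k + 1)) (s k) (s (k + 1)) := fun k => hf k (s k)
  have hξ := (monotone_nat_of_le_succ (f := fun k => ((s k).a : ℝ) / (s k).N)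
    fun k => (hs k).2.1).ciSup_mem_iInter_Icc_of_antitone
    (antitone_nat_of_succ_le (f := fun k => ((s k).a : ℝ) / (s k).N + (s k).η)
      fun k => (hs k).2.2.1) (fun k => by have := (s k).hη; simp only; linarith)
  have hζ := (monotone_nat_of_le_succ (f := fun k => ((s k).b : ℝ) / (s k).N)
    fun k => (hs k).2.2.2.1).ciSup_mem_iInter_Icc_of_antitone
    (antitone_nat_of_succ_le (f := fun k => ((s k).b : ℝ) / (s k).N + (s k).η)
      fun k => (hs k).2.2.2.2.1) (fun k => by have := (s k).hη; simp only; linarith)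
  rw [Set.mem_iInter] at hξ hζ
  generalize (⨆ k, ((s k).a : ℝ) / (s k).N) = ξ at hξ
  generalize (⨆ k, ((s k).b : ℝ) / (s k).N) = ζ at hζ
  have key := fun k => (hs k).2.2.2.2.2 ξ ζ (hξ (k + 1)).1 (hξ (k + 1)).2 (hζ (k + 1)).1
    (hζ (k + 1)).2
  have hN : ∀ k : ℕ, (k : ℤ) + 1 ≤ (s k).N := by
    intro k
    induction k with
    | zero => exact (s 0).hN
    | succ k ih => have := (hs k).1; push_cast; omega
  have small : ∀ δ : ℝ, 0 < δ → ∃ K : ℕ, ∀ k : ℕ, K ≤ k → (1 : ℝ) / (k + 1) ≤ δ := by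
    intro δ hδ
    obtain ⟨K, hK⟩ := exists_nat_one_div_lt hδ
    exact ⟨K, fun k hk => (Nat.one_div_le_one_div hk).trans hK.le⟩
  refine ⟨ξ, ζ, le_antisymm ?_ ?_⟩
  · refine EReal.le_of_forall_lt_iff_le.1 fun z hz => ?_
    have hz' : c < z := by exact_mod_cast hz
    obtain ⟨K, hK⟩ := small (z - c) (by linarith)
    refine limsup_le_of_le (h := ?_)
    filter_upwards [eventually_ge_atTop ((s K).N : ℝ)] with Q hQ
    have ex : ∀ j : ℕ, Q < (s (K + j)).N → ∃ k, K ≤ k ∧ ((s k).N : ℝ) ≤ Q ∧ Q < (s (k + 1)).N := by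
      intro j
      induction j with
      | zero => intro h; exact absurd hQ (not_le.2 h)
      | succ j ih =>
        intro h
        by_cases h' : Q < (s (K + j)).N
        · exact ih h'
        · exact ⟨K + j, by omega, not_lt.1 h', h⟩
    obtain ⟨j, hj⟩ := exists_nat_ge Q
    obtain ⟨k, k1, k2, k3⟩ := ex j (by
      have : (((K + j : ℕ) : ℤ) : ℝ) + 1 ≤ (s (K + j)).N := by exact_mod_cast hN (K + j)
      push_cast at this
      linarith [(Nat.cast_nonneg K : (0 : ℝ) ≤ K)])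
    have h1 := mQ_le (ξ := ξ) (ζ := ζ) (s k).N (s k).hN k2
    have h2 := (key k).1
    have h3 := hK k k1
    have h4 : Q * mQ Q ξ ζ ≤ (s (k + 1)).N * (nd ((s k).N * ξ) * nd ((s k).N * ζ)) :=
      mul_le_mul k3.le h1 (mQ_nonneg _ _ _) (by exact_mod_cast (s (k + 1)).hN.le)
    exact_mod_cast (show Q * mQ Q ξ ζ ≤ z by linarith)
  · refine EReal.ge_of_forall_gt_iff_ge.1 fun z hz => ?_
    have hz' : z < c := by exact_mod_cast hz
    obtain ⟨K, hK⟩ := small (c - z) (by linarith)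
    refine le_limsup_of_frequently_le ?_
    rw [frequently_atTop]
    intro Y
    obtain ⟨j, hj⟩ := exists_nat_ge Y
    have h0 : (((K + j + 1 : ℕ) : ℤ) : ℝ) + 1 ≤ (s (K + j + 1)).N := by
      exact_mod_cast hN (K + j + 1)
    push_cast at h0
    have hK0 := (Nat.cast_nonneg K : (0 : ℝ) ≤ K)
    have hj0 := (Nat.cast_nonneg j : (0 : ℝ) ≤ j)
    refine ⟨(s (K + j + 1)).N - 1, by linarith, ?_⟩
    have h1 : c - 1 / ((K + j : ℕ) + 1) ≤ ((s (K + j + 1)).N - 1) *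
        mQ ((s (K + j + 1)).N - 1) ξ ζ := le_mQ (by linarith) fun q q1 q2 =>
      (key (K + j)).2 q q1 (by
        have : (q : ℝ) < (s (K + j + 1)).N := by linarith
        exact_mod_cast this)
    have h3 := hK (K + j) (by omega)
    exact_mod_cast (show z ≤ ((s (K + j + 1)).N - 1) * mQ ((s (K + j + 1)).N - 1) ξ ζ by linarith)

theorem zero_mem : (0 : ℝ) ∈ spec := by
  refine ⟨0, 0, ?_⟩
  have : (fun Q : ℝ => ((Q * mQ Q 0 0 : ℝ) : EReal)) =ᶠ[atTop] fun _ => ((0 : ℝ) : EReal) := by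
    filter_upwards [eventually_ge_atTop (1 : ℝ)] with Q hQ
    have h1 := mQ_le (Q := Q) (ξ := 0) (ζ := 0) 1 le_rfl (by simpa using hQ)
    have h2 := mQ_nonneg Q 0 0
    have h3 : mQ Q 0 0 = 0 := le_antisymm (by simpa [nd] using h1) h2
    simp [h3]
  unfold L
  rw [limsup_congr this, limsup_const]

end Pool.Agent.H.MP_85fa44_nt
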