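import Pool.Agent.H.MP_85fa44_nt.D

set_option autoImplicit false

namespace Pool.Agent.H.MP_85fa44_nt

open MeasureTheory Filter

def box (a b c d : ℝ) : Set (Fin 2 → ℝ) := {z | a < z 0 ∧ z 0 < b ∧ c < z 1 ∧ z 1 < d}

theorem box_eq (a b c d : ℝ) :
    box a b c d = Set.pi Set.univ fun i => Set.Ioo (![a, c] i) (![b, d] i) := by
  ext z; simp [box, Fin.forall_fin_two, and_assoc]

theorem box_meas (a b c d : ℝ) : MeasurableSet (box a b c d) := by
  rw [box_eq]; exact MeasurableSet.univ_pi fun _ => measurableSet_Ioo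

theorem box_vol (a b c d : ℝ) (h : a ≤ b) :
    volume (box a b c d) = ENNReal.ofReal ((b - a) * (d - c)) := by
  rw [box_eq, Real.volume_pi_Ioo, Fin.prod_univ_two, ENNReal.ofReal_mul (by linarith)]
  simp

def Sep (k u v : ℝ) : Prop := 400 * k ^ 2 ≤ |u ^ 2 - v ^ 2| ∨ 1 / 2 ≤ |u| ∨ 1 / 2 ≤ |v|

theorem Sep.neg {k u v : ℝ} (h : Sep k u v) : Sep k (-u) (-v) := by
  simpa [Sep] using h

theorem Sep.swap {k u v : ℝ} (h : Sep k u v) : Sep k v u := by
  unfold Sep at *
  rw [abs_sub_comm]; tauto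

theorem nsep {k u v r R : ℝ} (hk : R ≤ 1 / 2) (hr : 0 ≤ r) (h1 : r ≤ |u|) (h2 : |u| < R)
    (h3 : r ≤ |v|) (h4 : |v| < R) (h5 : R ^ 2 - r ^ 2 ≤ 400 * k ^ 2) : ¬ Sep k u v := by
  rintro (h | h | h)
  · have a1 : r ^ 2 ≤ u ^ 2 := by rw [← sq_abs u]; exact pow_le_pow_left₀ hr h1 2
    have a2 : r ^ 2 ≤ v ^ 2 := by rw [← sq_abs v]; exact pow_le_pow_left₀ hr h3 2
    have a3 : u ^ 2 < R ^ 2 := by rw [← sq_abs u]; exact pow_lt_pow_left₀ h2 (abs_nonneg _) two_ne_zero
    have a4 : v ^ 2 < R ^ 2 := by rw [← sq_abs v]; exact pow_lt_pow_left₀ h4 (abs_nonneg _) two_ne_zero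
    have : |u ^ 2 - v ^ 2| < 400 * k ^ 2 := by rw [abs_lt]; constructor <;> linarith
    linarith
  · linarith
  · linarith

theorem sepW {k u v : ℝ} (k0 : 0 < k) (k1 : k ≤ 1 / 100) (h : Sep k u v) (h1 : -k < u)
    (h2 : u < 21 * k) (h3 : -k < v) (h4 : v < 20 * k) : 20 * k ≤ u ∧ v < 13 / 2 * k := by
  rcases h with h | h | h
  · have a1 : v ^ 2 < 400 * k ^ 2 := by nlinarith
    have a2 : u ^ 2 < 441 * k ^ 2 := by nlinarith
    have a3 : 400 * k ^ 2 ≤ u ^ 2 - v ^ 2 := by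
      rcases le_abs.1 h with h | h
      · exact h
      · nlinarith [sq_nonneg u]
    constructor
    · by_contra hc
      nlinarith [sq_nonneg v]
    · by_contra hc
      nlinarith
  · rcases le_abs.1 h with h | h <;> linarith
  · rcases le_abs.1 h with h | h <;> linarith

theorem pack {ι : Type} [Fintype ι] (U V : ι → ℝ) {k : ℝ} (k0 : 0 < k) (k1 : k ≤ 1 / 100)
    (sep : ∀ i j (a b : ℤ), (i ≠ j ∨ a ≠ 0 ∨ b ≠ 0) → Sep k (U j + a - U i) (V j + b - V i)) :
    (Fintype.card ι : ℝ) * (401 * k ^ 2) ≤ 1 := by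
  classical
  have hsg : ∀ i, ∃ α β : ℝ, (α = 10 ∧ β = 9 ∨ α = 9 ∧ β = 10) ∧ ∀ j (a b : ℤ) (x y : ℝ),
      U i + α * k < x → x < U i + (α + 1) * k → V i + β * k < y → y < V i + (β + 1) * k →
      U j + a - 10 * k < x → x < U j + a + 10 * k → V j + b - 10 * k < y →
      y < V j + b + 10 * k → False := by
    intro i
    by_contra hc
    push Not at hc
    obtain ⟨j, a, b, x, y, h1, h2, h3, h4, h5, h6, h7, h8, -⟩ := hc 10 9 (Or.inl ⟨rfl, rfl⟩)
    obtain ⟨j', a', b', x', y', g1, g2, g3, g4, g5, g6, g7, g8, -⟩ := hc 9 10 (Or.inr ⟨rfl, rfl⟩)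
    have n1 : i ≠ j ∨ a ≠ 0 ∨ b ≠ 0 := by
      by_contra hn; push Not at hn; obtain ⟨rfl, rfl, rfl⟩ := hn; push_cast at *; linarith
    have n2 : i ≠ j' ∨ a' ≠ 0 ∨ b' ≠ 0 := by
      by_contra hn; push Not at hn; obtain ⟨rfl, rfl, rfl⟩ := hn; push_cast at *; linarith
    obtain ⟨s1, s2⟩ := sepW k0 k1 (sep i j a b n1) (by linarith) (by linarith) (by linarith)
      (by linarith)
    obtain ⟨s3, s4⟩ := sepW k0 k1 (sep i j' a' b' n2).swap (by linarith) (by linarith)
      (by linarith) (by linarith)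
    have n3 : j' ≠ j ∨ a - a' ≠ 0 ∨ b - b' ≠ 0 := by
      by_contra hn; push Not at hn
      obtain ⟨rfl, e1, e2⟩ := hn
      obtain rfl : a = a' := by omega
      linarith
    refine nsep (r := 27 / 2 * k) (R := 22 * k) (by linarith) (by linarith) ?_ ?_ ?_ ?_
      (by nlinarith) (sep j' j (a - a') (b - b') n3) <;> push_cast
    · exact le_abs.2 (Or.inl (by linarith))
    · rw [abs_lt]; constructor <;> linarith
    · exact le_abs.2 (Or.inr (by linarith))
    · rw [abs_lt]; constructor <;> linarith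
  choose α β hαβ hW using hsg
  let D : ι → Set (Fin 2 → ℝ) := fun i =>
    box (U i - 10 * k) (U i + 10 * k) (V i - 10 * k) (V i + 10 * k)
  let W : ι → Set (Fin 2 → ℝ) := fun i =>
    box (U i + α i * k) (U i + (α i + 1) * k) (V i + β i * k) (V i + (β i + 1) * k)
  have key : ∀ i j (a b : ℤ) (z z' : Fin 2 → ℝ), z ∈ D i ∪ W i → z' ∈ D j ∪ W j → z 0 = z' 0 + a →
      z 1 = z' 1 + b → (i ≠ j ∨ a ≠ 0 ∨ b ≠ 0) → False := by
    rintro i j a b z z' (⟨h1, h2, h3, h4⟩ | ⟨h1, h2, h3, h4⟩) (⟨g1, g2, g3, g4⟩ | ⟨g1, g2, g3, g4⟩)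
      e1 e2 hn
    · refine nsep (r := 0) (R := 20 * k) (by linarith) le_rfl (abs_nonneg _) ?_ (abs_nonneg _) ?_
        (by nlinarith) (sep i j a b hn) <;> rw [abs_lt] <;> constructor <;> linarith
    · exact hW j i (-a) (-b) (z' 0) (z' 1) g1 g2 g3 g4 (by push_cast; linarith)
        (by push_cast; linarith) (by push_cast; linarith) (by push_cast; linarith)
    · exact hW i j a b (z 0) (z 1) h1 h2 h3 h4 (by linarith) (by linarith) (by linarith)
        (by linarith)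
    · have := hαβ i
      have := hαβ j
      have b1 : 9 * k ≤ α i * k ∧ α i * k ≤ 10 * k ∧ 9 * k ≤ β i * k ∧ β i * k ≤ 10 * k := by
        rcases hαβ i with ⟨e, e'⟩ | ⟨e, e'⟩ <;> rw [e, e'] <;> refine ⟨?_, ?_, ?_, ?_⟩ <;> linarith
      have b2 : 9 * k ≤ α j * k ∧ α j * k ≤ 10 * k ∧ 9 * k ≤ β j * k ∧ β j * k ≤ 10 * k := by
        rcases hαβ j with ⟨e, e'⟩ | ⟨e, e'⟩ <;> rw [e, e'] <;> refine ⟨?_, ?_, ?_, ?_⟩ <;> linarith
      obtain ⟨-, -, -, -⟩ := id b1
      refine nsep (r := 0) (R := 20 * k) (by linarith) le_rfl (abs_nonneg _) ?_ (abs_nonneg _) ?_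
        (by nlinarith) (sep i j a b hn) <;> rw [abs_lt] <;> constructor <;>
        linarith [b1.1, b1.2.1, b1.2.2.1, b1.2.2.2, b2.1, b2.2.1, b2.2.2.1, b2.2.2.2]
  have hm : ∀ i, MeasurableSet (D i ∪ W i) := fun i => (box_meas _ _ _ _).union (box_meas _ _ _ _)
  have hv : ∀ i, volume (D i ∪ W i) = ENNReal.ofReal (401 * k ^ 2) := by
    intro i
    rw [measure_union _ (box_meas _ _ _ _), box_vol _ _ _ _ (by linarith),
      box_vol _ _ _ _ (by linarith), ← ENNReal.ofReal_add (by nlinarith) (by nlinarith)]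
    · congr 1; ring
    · rw [Set.disjoint_left]
      rintro z ⟨h1, h2, h3, h4⟩ ⟨g1, g2, g3, g4⟩
      exact hW i i 0 0 (z 0) (z 1) g1 g2 g3 g4 (by simpa using h1) (by simpa using h2)
        (by simpa using h3) (by simpa using h4)
  have hS : volume (⋃ i ∈ (Finset.univ : Finset ι), (D i ∪ W i)) =
      ENNReal.ofReal ((Fintype.card ι : ℝ) * (401 * k ^ 2)) := by
    rw [measure_biUnion_finset _ fun i _ => hm i]
    · simp only [hv, Finset.sum_const, Finset.card_univ, nsmul_eq_mul]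
      rw [ENNReal.ofReal_mul (Nat.cast_nonneg _), ENNReal.ofReal_natCast]
    · intro i _ j _ hij
      rw [Function.onFun, Set.disjoint_left]
      intro z h1 h2
      exact key i j 0 0 z z h1 h2 (by simp) (by simp) (Or.inl hij)
  by_contra hc
  have fund := ZSpan.isAddFundamentalDomain' (Pi.basisFun ℝ (Fin 2)) volume
  haveI : Countable (Submodule.span ℤ (Set.range (Pi.basisFun ℝ (Fin 2)))).toAddSubgroup := by
    change Countable (Submodule.span ℤ (Set.range (Pi.basisFun ℝ (Fin 2))))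
    infer_instance
  obtain ⟨x, y, hxy, hd⟩ := exists_pair_mem_lattice_not_disjoint_vadd fund
    (s := ⋃ i ∈ (Finset.univ : Finset ι), (D i ∪ W i))
    (Finset.measurableSet_biUnion _ fun i _ => hm i).nullMeasurableSet (by
      rw [hS, ZSpan.fundamentalDomain_pi_basisFun, volume_pi, Measure.pi_pi]
      simp only [Real.volume_Ico, sub_zero, ENNReal.ofReal_one, Finset.prod_const_one]
      rw [← ENNReal.ofReal_one]
      exact (ENNReal.ofReal_lt_ofReal_iff (by linarith)).2 (by linarith))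
  rw [Set.not_disjoint_iff] at hd
  obtain ⟨w, ⟨z, hz, e1⟩, ⟨z', hz', e2⟩⟩ := hd
  simp only [Set.mem_iUnion, Finset.mem_univ, exists_true_left] at hz hz'
  obtain ⟨i, hi⟩ := hz
  obtain ⟨j, hj⟩ := hz'
  have hint : ∀ t : Fin 2, ∃ a : ℤ, (y - x).1 t = a := by
    intro t
    obtain ⟨a, ha⟩ := ((Pi.basisFun ℝ (Fin 2)).mem_span_iff_repr_mem ℤ _).1 (y - x).2 t
    exact ⟨a, by simpa using ha.symm⟩
  obtain ⟨a, ha⟩ := hint 0
  obtain ⟨b, hb⟩ := hint 1
  have e : x.1 + z = y.1 + z' := e1.trans e2.symm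
  have ha' : y.1 0 - x.1 0 = a := ha
  have hb' : y.1 1 - x.1 1 = b := hb
  have f0 : x.1 0 + z 0 = y.1 0 + z' 0 := congrFun e 0
  have f1 : x.1 1 + z 1 = y.1 1 + z' 1 := congrFun e 1
  refine key i j a b z z' hi hj (by linarith) (by linarith) (Or.inr ?_)
  by_contra hn
  push Not at hn
  obtain ⟨rfl, rfl⟩ := hn
  refine hxy (Subtype.ext (funext fun t => ?_))
  fin_cases t
  · simp only [Int.cast_zero] at ha'; show x.1 0 = y.1 0; linarith
  · simp only [Int.cast_zero] at hb'; show x.1 1 = y.1 1; linarith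

theorem nd_neg (x : ℝ) : nd (-x) = nd x := by
  apply le_antisymm
  · have := round_le (-x) (-round x)
    rw [show -x - ((-round x : ℤ) : ℝ) = -(x - round x) by push_cast; ring, abs_neg] at this
    exact this
  · have := round_le x (-round (-x))
    rw [show x - ((-round (-x) : ℤ) : ℝ) = -(-x - round (-x)) by push_cast; ring, abs_neg] at this
    exact this

theorem upper (ξ ζ Q : ℝ) (hQ : 13 ≤ Q) : Q * mQ Q ξ ζ ≤ 200 / 401 := by
  by_contra hc
  have Q0 : 0 < Q := by linarith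
  obtain ⟨k, k0, hk⟩ : ∃ k : ℝ, 0 < k ∧ k ^ 2 = 1 / (802 * Q) :=
    ⟨Real.sqrt (1 / (802 * Q)), Real.sqrt_pos.2 (by positivity), Real.sq_sqrt (by positivity)⟩
  have hk' : k ^ 2 * (802 * Q) = 1 := by rw [hk]; field_simp
  have k1 : k ≤ 1 / 100 := by
    by_contra h
    have : 1 / 10000 ≤ k ^ 2 := by nlinarith
    nlinarith
  have hm : 400 * k ^ 2 ≤ mQ Q ξ ζ := by
    have : Q * (400 * k ^ 2) ≤ Q * mQ Q ξ ζ := by linarith
    exact le_of_mul_le_mul_left this Q0
  have H : ∀ q p r : ℤ, q ≠ 0 → |(q : ℝ)| ≤ Q → 400 * k ^ 2 ≤ |(q * ξ - p) * (q * ζ - r)| := by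
    intro q p r hq hQ'
    have h1 : mQ Q ξ ζ ≤ nd (q * ξ) * nd (q * ζ) := by
      rcases lt_or_gt_of_ne hq with h | h
      · have := mQ_le (Q := Q) (ξ := ξ) (ζ := ζ) (-q) (by omega)
          (by push_cast; exact (neg_le_abs _).trans hQ')
        push_cast at this
        rwa [neg_mul, neg_mul, nd_neg, nd_neg] at this
      · exact mQ_le q (by omega) ((le_abs_self _).trans hQ')
    rw [abs_mul]
    exact hm.trans (h1.trans (mul_le_mul (round_le _ _) (round_le _ _) (nd_nonneg _)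
      (abs_nonneg _)))
  have hF := Nat.floor_le Q0.le
  have hF' := Nat.lt_floor_add_one Q
  have := pack (ι := Fin (⌊Q⌋₊ + 1) × Fin 2) (fun i => (i.1 * ξ + i.1 * ζ + i.2) / 2)
    (fun i => (i.1 * ξ - i.1 * ζ + i.2) / 2) k0 k1 (by
      rintro ⟨q, e⟩ ⟨q', e'⟩ a b hn
      simp only
      by_cases hq : q = q'
      · subst hq
        right
        by_contra hc
        push Not at hc
        rw [abs_lt, abs_lt] at hc
        have a1 : (-1 : ℝ) < ((e' - e + 2 * a : ℤ) : ℝ) := by push_cast; linarith [hc.1.1]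
        have a2 : ((e' - e + 2 * a : ℤ) : ℝ) < 1 := by push_cast; linarith [hc.1.2]
        have a3 : (-1 : ℝ) < ((e' - e + 2 * b : ℤ) : ℝ) := by push_cast; linarith [hc.2.1]
        have a4 : ((e' - e + 2 * b : ℤ) : ℝ) < 1 := by push_cast; linarith [hc.2.2]
        have b1 : -1 < (e' - e + 2 * a : ℤ) := by exact_mod_cast a1
        have b2 : (e' - e + 2 * a : ℤ) < 1 := by exact_mod_cast a2
        have b3 : -1 < (e' - e + 2 * b : ℤ) := by exact_mod_cast a3
        have b4 : (e' - e + 2 * b : ℤ) < 1 := by exact_mod_cast a4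
        have := e.2
        have := e'.2
        rcases hn with h | h | h
        · exact h (by rw [Fin.ext (show e.1 = e'.1 by omega)])
        · omega
        · omega
      · left
        have q1 : ((q : ℕ) : ℝ) ≤ ⌊Q⌋₊ := by exact_mod_cast Nat.lt_succ_iff.1 q.2
        have q2 : ((q' : ℕ) : ℝ) ≤ ⌊Q⌋₊ := by exact_mod_cast Nat.lt_succ_iff.1 q'.2
        have q3 : (0 : ℝ) ≤ (q : ℕ) := Nat.cast_nonneg _
        have q4 : (0 : ℝ) ≤ (q' : ℕ) := Nat.cast_nonneg _
        have := H ((q' : ℕ) - (q : ℕ)) (-((e' : ℕ) - (e : ℕ) + a + b)) (b - a)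
          (by have := Fin.val_ne_of_ne hq; omega)
          (by push_cast; rw [abs_le]; constructor <;> linarith)
        convert this using 2
        push_cast; ring)
  simp only [Fintype.card_prod, Fintype.card_fin] at this
  push_cast at this
  have h2 : 0 < k ^ 2 := by positivity
  nlinarith

theorem L_le (ξ ζ : ℝ) : L ξ ζ ≤ ((200 / 401 : ℝ) : EReal) := by
  refine limsup_le_of_le (h := ?_)
  filter_upwards [eventually_ge_atTop (13 : ℝ)] with Q hQ
  exact_mod_cast upper ξ ζ Q hQ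

end Pool.Agent.H.MP_85fa44_nt
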